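import Pool.Agent.helper40.FI3.SpecLA3

/-!
# Row `fi3:LFE3`: every character of `Y` has an extension fixed by `I`
-/

set_option autoImplicit false

namespace Pool.Agent.FI3

open Finset Pool.Agent.GR Pool.Agent.FI

theorem LFE3_prod {D T : Type} [CommGroup D] (s : Finset T) (f : T → (D →* ℂˣ)) (u : D) :
    lv (∏ t ∈ s, f t) u = ∏ t ∈ s, lv (f t) u := by
  classical
  induction s using Finset.induction_on with
  | empty => simp
  | insert a s ha ih => rw [prod_insert ha, prod_insert ha, lv_hmul, ih]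

theorem LFE3_pow {D : Type} [CommGroup D] (l : D →* ℂˣ) (e : ℕ) (u : D) : lv (l ^ e) u = lv l u ^ e := by
  unfold lv
  rw [MonoidHom.pow_apply, Units.val_pow_eq_pow_val]

theorem LFE3_modEq (q N : ℕ) (h : Nat.Coprime q N) (hN : N ≠ 0) : ∃ e, q * e ≡ 1 [MOD N] := by
  rcases Nat.lt_or_ge 1 N with h1 | h1
  · obtain ⟨e, -, he⟩ := Nat.exists_mul_mod_eq_one_of_coprime h h1
    exact ⟨e, by rw [Nat.ModEq, he, Nat.mod_eq_of_lt h1]⟩
  · have h2 : N = 1 := by omega
    subst h2
    exact ⟨0, Nat.modEq_one⟩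

theorem LFE3 : LFE3_stmt := by
  classical
  intro p D _ _ Y I l hp hD hI hY
  have : Fact p.Prime := ⟨hp⟩
  have : Finite (MulAut D) := Finite.of_injective (fun g => (g : D → D)) DFunLike.coe_injective
  have : Fintype I := Fintype.ofFinite I
  obtain ⟨k, hk⟩ := (IsPGroup.iff_card (p := p) (G := D)).1 hD
  have hcop : Nat.Coprime (Nat.card I) (Nat.card D) := by
    rw [hk]
    exact Nat.Coprime.pow_right k (Nat.Coprime.symm ((Nat.Prime.coprime_iff_not_dvd hp).2 hI))
  obtain ⟨e, he⟩ := LFE3_modEq _ _ hcop Nat.card_pos.ne'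
  refine ⟨(∏ t : I, tw (t : MulAut D) l) ^ e, ?_, ?_⟩
  · intro s hs u
    rw [LFE3_pow, LFE3_pow, LFE3_prod, LFE3_prod]
    refine congrArg (· ^ e) ?_
    exact Fintype.prod_equiv (Equiv.mulRight (⟨s, hs⟩ : I)) _ _ fun t => rfl
  · intro y hy
    rw [LFE3_pow, LFE3_prod]
    have h1 : ∏ t : I, lv (tw (t : MulAut D) l) y = lv l y ^ Nat.card I := by
      have h2 : ∀ t : I, lv (tw (t : MulAut D) l) y = lv l y := fun t => by rw [lv_tw, hY t.1 t.2 y hy]
      rw [Finset.prod_congr rfl fun t _ => h2 t, prod_const, card_univ, Nat.card_eq_fintype_card]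
    rw [h1, ← pow_mul, pow_eq_pow_of_modEq he (lv_pow_card l y), pow_one]

end Pool.Agent.FI3
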